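import Mathlib

/-!
# Judicious partitions of uniform hypergraphs: the analytic and combinatorial core

A chain of simple inductions on finite sets.
* `sv rho S C` : starting from the set `S`, the elements of `C` are added one by one in random order
  (each at rate `1`), and the process is killed at rate `rho (current set)`; `sv` is the probability
  of never being killed.
* `gp G S C` : expected number of initial segments (in a random order of `C`) such that `S ∪ initial segment` is
  not in the family `G`.
-/

set_option autoImplicit false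
open Finset

namespace Pool.Agent.H78BT

variable {α : Type*} [DecidableEq α]

/-- survival probability, with fuel -/
noncomputable def svF (rho : Finset α → ℝ) : ℕ → Finset α → Finset α → ℝ
  | 0, S, _ => if rho S = 0 then 1 else 0
  | (m+1), S, C => (∑ x ∈ C, svF rho m (insert x S) (C.erase x)) / ((m : ℝ) + 1 + rho S)

/-- survival probability -/
noncomputable def sv (rho : Finset α → ℝ) (S C : Finset α) : ℝ := svF rho C.card S C

theorem sv_empty (rho : Finset α → ℝ) (S : Finset α) :
    sv rho S ∅ = if rho S = 0 then 1 else 0 := rfl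

theorem sv_rec (rho : Finset α → ℝ) (hrho : ∀ S, 0 ≤ rho S) (S C : Finset α) :
    ((C.card : ℝ) + rho S) * sv rho S C = ∑ x ∈ C, sv rho (insert x S) (C.erase x) := by
  rcases C.eq_empty_or_nonempty with h | h
  · subst h
    rw [sv_empty]
    simp only [card_empty, Nat.cast_zero, zero_add, sum_empty]
    split_ifs with h0
    · rw [h0]; simp
    · simp
  · obtain ⟨m, hm⟩ : ∃ m, C.card = m + 1 := ⟨C.card - 1, by have := h.card_pos; omega⟩
    have h1 : sv rho S C = (∑ x ∈ C, svF rho m (insert x S) (C.erase x)) / ((m : ℝ) + 1 + rho S) := by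
      unfold sv; rw [hm]; rfl
    have h2 : ∀ x ∈ C, sv rho (insert x S) (C.erase x) = svF rho m (insert x S) (C.erase x) := by
      intro x hx
      unfold sv
      rw [card_erase_of_mem hx, hm]; rfl
    rw [sum_congr rfl h2, h1, hm]
    have h3 : (0:ℝ) < (m : ℝ) + 1 + rho S := by
      have := hrho S
      positivity
    push_cast
    field_simp

theorem sv_nonneg (rho : Finset α → ℝ) (hrho : ∀ S, 0 ≤ rho S) (C : Finset α) :
    ∀ S, 0 ≤ sv rho S C := by
  induction C using Finset.strongInduction with
  | H C ih =>
    intro S
    rcases C.eq_empty_or_nonempty with h | h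
    · subst h; rw [sv_empty]; split_ifs <;> norm_num
    · have h1 := sv_rec rho hrho S C
      have h2 : 0 ≤ ∑ x ∈ C, sv rho (insert x S) (C.erase x) :=
        sum_nonneg fun x hx => ih _ (erase_ssubset hx) _
      have h3 : (0:ℝ) < (C.card : ℝ) + rho S := by
        have := hrho S
        have : (0:ℝ) < C.card := by exact_mod_cast h.card_pos
        linarith [hrho S]
      by_contra hneg
      push Not at hneg
      nlinarith

theorem sv_le_one (rho : Finset α → ℝ) (hrho : ∀ S, 0 ≤ rho S) (C : Finset α) :
    ∀ S, sv rho S C ≤ 1 := by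
  induction C using Finset.strongInduction with
  | H C ih =>
    intro S
    rcases C.eq_empty_or_nonempty with h | h
    · subst h; rw [sv_empty]; split_ifs <;> norm_num
    · have h1 := sv_rec rho hrho S C
      have h2 : ∑ x ∈ C, sv rho (insert x S) (C.erase x) ≤ ∑ x ∈ C, (1:ℝ) :=
        sum_le_sum fun x hx => ih _ (erase_ssubset hx) _
      rw [sum_const, nsmul_eq_mul, mul_one] at h2
      have h4 : (0:ℝ) < C.card := by exact_mod_cast h.card_pos
      have h3 : (0:ℝ) < (C.card : ℝ) + rho S := by linarith [hrho S]
      by_contra hneg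
      push Not at hneg
      nlinarith [hrho S]

/-- adding an element for free helps survival -/
theorem sv_mono (rho : Finset α → ℝ) (hrho : ∀ S, 0 ≤ rho S)
    (hanti : ∀ S T, S ⊆ T → rho T ≤ rho S) (C : Finset α) :
    ∀ S, ∀ y ∈ C, sv rho S C ≤ sv rho (insert y S) (C.erase y) := by
  induction C using Finset.strongInduction with
  | H C ih =>
    intro S y hy
    have h1 := sv_rec rho hrho S C
    have h2 := sv_rec rho hrho (insert y S) (C.erase y)
    have h3 : ∑ x ∈ C, sv rho (insert x S) (C.erase x)
        = sv rho (insert y S) (C.erase y)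
          + ∑ x ∈ C.erase y, sv rho (insert x S) (C.erase x) := by
      rw [add_comm, sum_erase_add _ _ hy]
    have h4 : ∑ x ∈ C.erase y, sv rho (insert x S) (C.erase x)
        ≤ ∑ x ∈ C.erase y, sv rho (insert x (insert y S)) ((C.erase y).erase x) := by
      apply sum_le_sum
      intro x hx
      have hxC : x ∈ C := mem_of_mem_erase hx
      have hxy : y ≠ x := (ne_of_mem_erase hx).symm
      have := ih _ (erase_ssubset hxC) (insert x S) y (mem_erase.2 ⟨hxy, hy⟩)
      rw [Finset.insert_comm x y S, Finset.erase_right_comm]
      exact this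
    have h5 : ((C.erase y).card : ℝ) = (C.card : ℝ) - 1 := by
      rw [card_erase_of_mem hy, Nat.cast_sub (card_pos.2 ⟨y, hy⟩)]; simp
    rw [h5] at h2
    rw [← h2] at h4
    have h6 := hanti S (insert y S) (subset_insert y S)
    have h7 := sv_nonneg rho hrho (C.erase y) (insert y S)
    have h8 : (1:ℝ) ≤ C.card := by exact_mod_cast card_pos.2 ⟨y, hy⟩
    have h9 : (0:ℝ) < (C.card : ℝ) + rho S := by linarith [hrho S]
    rw [h3] at h1
    have h10 : ((C.card : ℝ) + rho S) * sv rho S C
        ≤ ((C.card : ℝ) + rho S) * sv rho (insert y S) (C.erase y) := by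
      nlinarith
    exact le_of_mul_le_mul_left h10 h9

/-- comparing killing rates `a` and `k * a` -/
theorem sv_compare (a : Finset α → ℝ) (ha : ∀ S, 0 ≤ a S)
    (hanti : ∀ S T, S ⊆ T → a T ≤ a S) (k : ℝ) (hk : 1 ≤ k) (c : ℝ) (C : Finset α) :
    ∀ S, c ≤ sv a S C →
      c * ((k - 1) / k) * (1 - sv (fun T => k * a T) S C)
        ≤ sv a S C - sv (fun T => k * a T) S C := by
  have hk0 : 0 < k := by linarith
  have hka : ∀ S, 0 ≤ (fun T => k * a T) S := fun S => mul_nonneg hk0.le (ha S)
  induction C using Finset.strongInduction with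
  | H C ih =>
    intro S hc
    rcases C.eq_empty_or_nonempty with h | h
    · subst h
      rw [sv_empty] at hc ⊢
      rw [sv_empty]
      by_cases h0 : a S = 0
      · simp [h0]
      · have h0' : k * a S ≠ 0 := mul_ne_zero hk0.ne' h0
        simp only [h0, h0', if_false] at hc ⊢
        have : 0 ≤ (k - 1) / k := div_nonneg (by linarith) hk0.le
        nlinarith
    · have h1 := sv_rec a ha S C
      have h2 := sv_rec (fun T => k * a T) hka S C
      set L1 := sv a S C with hL1
      set Lk := sv (fun T => k * a T) S C with hLk
      set q := c * ((k - 1) / k) with hq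
      have hqk : q * k = c * (k - 1) := by
        rw [hq]; field_simp
      have h3 : ∑ x ∈ C, (q * (1 - sv (fun T => k * a T) (insert x S) (C.erase x)))
          ≤ ∑ x ∈ C, (sv a (insert x S) (C.erase x)
              - sv (fun T => k * a T) (insert x S) (C.erase x)) := by
        apply sum_le_sum
        intro x hx
        exact ih _ (erase_ssubset hx) _ (hc.trans (sv_mono a ha hanti C S x hx))
      rw [sum_sub_distrib, ← mul_sum, sum_sub_distrib, sum_const, nsmul_eq_mul, mul_one,
        ← h1, ← h2] at h3
      have h4 : (0:ℝ) < C.card := by exact_mod_cast h.card_pos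
      have h5 : (0:ℝ) < (C.card : ℝ) + k * a S := by
        have := mul_nonneg hk0.le (ha S); linarith
      have h6 : ((C.card : ℝ) + k * a S) * (q * (1 - Lk))
          ≤ ((C.card : ℝ) + k * a S) * (L1 - Lk) := by
        have h7 : 0 ≤ a S * ((k - 1) * (L1 - c)) :=
          mul_nonneg (ha S) (mul_nonneg (by linarith) (by linarith))
        have e1 : ((C.card : ℝ) + k * a S) * (q * (1 - Lk))
            = q * ((C.card : ℝ) - ((C.card : ℝ) + k * a S) * Lk) + (q * k) * a S := by ring
        have e2 : ((C.card : ℝ) + k * a S) * (L1 - Lk)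
            = ((C.card : ℝ) + a S) * L1 - ((C.card : ℝ) + k * a S) * Lk
              + (k - 1) * a S * L1 := by ring
        rw [e1, e2, hqk]
        nlinarith
      exact le_of_mul_le_mul_left h6 h5

/-- a family given by its indicator; `ind G S = 1` when `S` is not in the family -/
def ind (G : Finset α → Bool) (S : Finset α) : ℝ := if G S then 0 else 1

omit [DecidableEq α] in
theorem ind_nonneg (G : Finset α → Bool) (S : Finset α) : 0 ≤ ind G S := by
  unfold ind; split_ifs <;> norm_num

omit [DecidableEq α] in
theorem ind_le_one (G : Finset α → Bool) (S : Finset α) : ind G S ≤ 1 := by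
  unfold ind; split_ifs <;> norm_num

/-- increasing families -/
def Up (G : Finset α → Bool) : Prop := ∀ S T, S ⊆ T → G S = true → G T = true

theorem sv_ind_eq_one (G : Finset α → Bool) (hG : Up G) (C : Finset α) :
    ∀ S, G S = true → sv (ind G) S C = 1 := by
  induction C using Finset.strongInduction with
  | H C ih =>
    intro S hS
    have hi : ind G S = 0 := by simp [ind, hS]
    rcases C.eq_empty_or_nonempty with h | h
    · subst h; rw [sv_empty, if_pos hi]
    · have h1 := sv_rec (ind G) (ind_nonneg G) S C
      have h2 : ∑ x ∈ C, sv (ind G) (insert x S) (C.erase x) = ∑ x ∈ C, (1:ℝ) :=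
        sum_congr rfl fun x hx => ih _ (erase_ssubset hx) _ (hG _ _ (subset_insert x S) hS)
      rw [h2, sum_const, nsmul_eq_mul, mul_one, hi, add_zero] at h1
      have h4 : (0:ℝ) < C.card := by exact_mod_cast h.card_pos
      have : (C.card : ℝ) * (sv (ind G) S C - 1) = 0 := by linarith
      rcases mul_eq_zero.1 this with h5 | h5
      · linarith
      · linarith

/-- the averaged killing rate of a finite list of families indexed by `e` -/
noncomputable def avgRate {β : Type*} (e : Finset β) (G : β → Finset α → Bool) (S : Finset α) : ℝ :=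
  (∑ v ∈ e, ind (G v) S) / e.card

omit [DecidableEq α] in
theorem avgRate_nonneg {β : Type*} (e : Finset β) (G : β → Finset α → Bool) (S : Finset α) :
    0 ≤ avgRate e G S :=
  div_nonneg (sum_nonneg fun _ _ => ind_nonneg _ _) (Nat.cast_nonneg _)

omit [DecidableEq α] in
theorem avgRate_anti {β : Type*} (e : Finset β) (G : β → Finset α → Bool)
    (hG : ∀ v ∈ e, Up (G v)) (S T : Finset α) (hST : S ⊆ T) :
    avgRate e G T ≤ avgRate e G S := by
  unfold avgRate
  apply div_le_div_of_nonneg_right _ (Nat.cast_nonneg _)
  apply sum_le_sum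
  intro v hv
  unfold ind
  by_cases h : G v S = true
  · rw [if_pos h, if_pos (hG v hv S T hST h)]
  · rw [if_neg h]
    split_ifs <;> norm_num

/-- survival under the averaged rate is at most the average of the individual survivals -/
theorem sv_avg_le {β : Type*} (e : Finset β) (he : e.Nonempty) (G : β → Finset α → Bool)
    (hG : ∀ v ∈ e, Up (G v)) (C : Finset α) :
    ∀ S, (e.card : ℝ) * sv (avgRate e G) S C ≤ ∑ v ∈ e, sv (ind (G v)) S C := by
  have hk : (0:ℝ) < e.card := by exact_mod_cast he.card_pos
  induction C using Finset.strongInduction with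
  | H C ih =>
    intro S
    rcases C.eq_empty_or_nonempty with h | h
    · subst h
      simp only [sv_empty]
      by_cases h0 : avgRate e G S = 0
      · rw [if_pos h0]
        have h1 : ∑ v ∈ e, ind (G v) S = 0 := by
          unfold avgRate at h0
          rcases div_eq_zero_iff.1 h0 with h2 | h2
          · exact h2
          · exact absurd h2 hk.ne'
        rw [sum_eq_zero_iff_of_nonneg (fun v _ => ind_nonneg _ _)] at h1
        rw [sum_congr rfl (fun v hv => if_pos (h1 v hv))]
        simp
      · rw [if_neg h0, mul_zero]
        exact sum_nonneg fun v _ => by split_ifs <;> norm_num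
    · have h4 : (0:ℝ) < C.card := by exact_mod_cast h.card_pos
      have h1 := sv_rec (avgRate e G) (avgRate_nonneg e G) S C
      have h2 : (e.card : ℝ) * ∑ x ∈ C, sv (avgRate e G) (insert x S) (C.erase x)
          ≤ ∑ v ∈ e, ((C.card : ℝ) + ind (G v) S) * sv (ind (G v)) S C := by
        rw [mul_sum]
        calc ∑ x ∈ C, (e.card : ℝ) * sv (avgRate e G) (insert x S) (C.erase x)
            ≤ ∑ x ∈ C, ∑ v ∈ e, sv (ind (G v)) (insert x S) (C.erase x) :=
              sum_le_sum fun x hx => ih _ (erase_ssubset hx) _
          _ = ∑ v ∈ e, ∑ x ∈ C, sv (ind (G v)) (insert x S) (C.erase x) := sum_comm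
          _ = ∑ v ∈ e, ((C.card : ℝ) + ind (G v) S) * sv (ind (G v)) S C := by
              apply sum_congr rfl
              intro v hv
              rw [sv_rec (ind (G v)) (ind_nonneg _) S C]
      rw [← h1] at h2
      -- Chebyshev step
      set U := ∑ v ∈ e, ind (G v) S with hU
      set M := ∑ v ∈ e, sv (ind (G v)) S C with hM
      set M1 := ∑ v ∈ e, ind (G v) S * sv (ind (G v)) S C with hM1
      have hsplit : ∑ v ∈ e, ((C.card : ℝ) + ind (G v) S) * sv (ind (G v)) S C
          = (C.card : ℝ) * M + M1 := by
        rw [hM, hM1, mul_sum, ← sum_add_distrib]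
        apply sum_congr rfl
        intro v hv; ring
      have hMM1 : M = M1 + ((e.card : ℝ) - U) := by
        rw [hM, hM1, hU]
        have : (e.card : ℝ) = ∑ v ∈ e, (1:ℝ) := by simp
        rw [this, ← sum_sub_distrib, ← sum_add_distrib]
        apply sum_congr rfl
        intro v hv
        by_cases hb : G v S = true
        · have e1 : ind (G v) S = 0 := by simp [ind, hb]
          rw [sv_ind_eq_one (G v) (hG v hv) C S hb, e1]; ring
        · have e1 : ind (G v) S = 1 := by simp [ind, hb]
          rw [e1]; ring
      have hM1U : M1 ≤ U := by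
        apply sum_le_sum
        intro v hv
        have := sv_le_one (ind (G v)) (ind_nonneg _) C S
        have := ind_nonneg (G v) S
        nlinarith
      have hUk : U ≤ e.card := by
        have : (e.card : ℝ) = ∑ v ∈ e, (1:ℝ) := by simp
        rw [this]
        exact sum_le_sum fun v _ => ind_le_one _ _
      have hcheb : M1 * e.card ≤ U * M := by
        rw [hMM1]; nlinarith
      have havg : avgRate e G S * e.card = U := by
        unfold avgRate; rw [div_mul_cancel₀ _ hk.ne']
      rw [hsplit] at h2
      have ha := avgRate_nonneg e G S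
      have h9 : (0:ℝ) < (C.card : ℝ) + avgRate e G S := by linarith
      have h10 : ((C.card : ℝ) + avgRate e G S) * ((e.card : ℝ) * sv (avgRate e G) S C)
          ≤ ((C.card : ℝ) + avgRate e G S) * M := by
        have h11 : M1 ≤ avgRate e G S * M := by
          have : M1 * e.card ≤ (avgRate e G S * M) * e.card := by
            calc M1 * e.card ≤ U * M := hcheb
              _ = (avgRate e G S * M) * e.card := by rw [← havg]; ring
          exact le_of_mul_le_mul_right this hk
        nlinarith
      exact le_of_mul_le_mul_left h10 h9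

end Pool.Agent.H78BT
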