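import Pool.Agent.H78BT.Pack

/-!
# The random greedy bad set
-/

set_option autoImplicit false
open Finset

namespace Pool.Agent.H78BT

variable {α : Type*} [DecidableEq α]

/-- expected value of `phi` at the final greedy set, with fuel: the elements of `C` arrive in random
order and are accepted as long as the accepted set stays outside the family `G`. -/
noncomputable def grF (G : Finset α → Bool) (phi : Finset α → ℝ) :
    ℕ → Finset α → Finset α → ℝ
  | 0, X, _ => phi X
  | (m+1), X, C =>
      (∑ x ∈ C, grF G phi m (if G (insert x X) then X else insert x X) (C.erase x)) / ((m : ℝ) + 1)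

/-- expected value of `phi` at the final greedy set -/
noncomputable def gr (G : Finset α → Bool) (phi : Finset α → ℝ) (X C : Finset α) : ℝ :=
  grF G phi C.card X C

theorem gr_empty (G : Finset α → Bool) (phi : Finset α → ℝ) (X : Finset α) :
    gr G phi X ∅ = phi X := rfl

theorem gr_rec (G : Finset α → Bool) (phi : Finset α → ℝ) (X C : Finset α) :
    (C.card : ℝ) * gr G phi X C
      = ∑ x ∈ C, gr G phi (if G (insert x X) then X else insert x X) (C.erase x) := by
  rcases C.eq_empty_or_nonempty with h | h
  · subst h; simp
  · obtain ⟨m, hm⟩ : ∃ m, C.card = m + 1 := ⟨C.card - 1, by have := h.card_pos; omega⟩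
    have h1 : gr G phi X C = (∑ x ∈ C, grF G phi m (if G (insert x X) then X else insert x X)
        (C.erase x)) / ((m : ℝ) + 1) := by
      unfold gr; rw [hm]; rfl
    have h2 : ∀ x ∈ C, gr G phi (if G (insert x X) then X else insert x X) (C.erase x)
        = grF G phi m (if G (insert x X) then X else insert x X) (C.erase x) := by
      intro x hx
      unfold gr
      rw [card_erase_of_mem hx, hm]; rfl
    rw [sum_congr rfl h2, h1, hm]
    have h3 : (0:ℝ) < (m : ℝ) + 1 := by positivity
    push_cast
    field_simp

/-- the greedy average is additive -/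
theorem gr_sum {β : Type*} (E : Finset β) (G : Finset α → Bool) (phi : β → Finset α → ℝ)
    (C : Finset α) : ∀ X, gr G (fun Y => ∑ e ∈ E, phi e Y) X C = ∑ e ∈ E, gr G (phi e) X C := by
  induction C using Finset.strongInduction with
  | H C ih =>
    intro X
    rcases C.eq_empty_or_nonempty with h | h
    · subst h; simp [gr_empty]
    · have h4 : (0:ℝ) < C.card := by exact_mod_cast h.card_pos
      have h1 : (C.card : ℝ) * gr G (fun Y => ∑ e ∈ E, phi e Y) X C
          = (C.card : ℝ) * ∑ e ∈ E, gr G (phi e) X C := by
        rw [gr_rec, mul_sum, sum_congr rfl (fun x hx => ih _ (erase_ssubset hx) _), sum_comm]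
        apply sum_congr rfl
        intro e _
        rw [gr_rec]
      exact mul_left_cancel₀ h4.ne' h1

/-- the greedy average is at most the maximum over sets outside the family -/
theorem gr_le (G : Finset α → Bool) (phi : Finset α → ℝ) (c : ℝ)
    (hc : ∀ X, G X ≠ true → phi X ≤ c) (C : Finset α) :
    ∀ X, G X ≠ true → gr G phi X C ≤ c := by
  induction C using Finset.strongInduction with
  | H C ih =>
    intro X hX
    rcases C.eq_empty_or_nonempty with h | h
    · subst h; exact hc X hX
    · have h4 : (0:ℝ) < C.card := by exact_mod_cast h.card_pos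
      have h1 : (C.card : ℝ) * gr G phi X C ≤ (C.card : ℝ) * c := by
        rw [gr_rec]
        calc ∑ x ∈ C, gr G phi (if G (insert x X) then X else insert x X) (C.erase x)
            ≤ ∑ x ∈ C, c := by
              apply sum_le_sum
              intro x hx
              apply ih _ (erase_ssubset hx)
              split_ifs with hg
              · exact hX
              · exact hg
          _ = (C.card : ℝ) * c := by rw [sum_const, nsmul_eq_mul]
      exact le_of_mul_le_mul_left h1 h4

/-- the indicator that `X` misses `e` -/
noncomputable def miss (e X : Finset α) : ℝ := if Disjoint X e then 1 else 0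

theorem gr_miss_zero (G : Finset α → Bool) (e : Finset α) (C : Finset α) :
    ∀ X, ¬ Disjoint X e → gr G (miss e) X C = 0 := by
  induction C using Finset.strongInduction with
  | H C ih =>
    intro X hX
    rcases C.eq_empty_or_nonempty with h | h
    · subst h; rw [gr_empty, miss, if_neg hX]
    · have h4 : (0:ℝ) < C.card := by exact_mod_cast h.card_pos
      have h1 : (C.card : ℝ) * gr G (miss e) X C = 0 := by
        rw [gr_rec]
        apply sum_eq_zero
        intro x hx
        apply ih _ (erase_ssubset hx)
        split_ifs with hg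
        · exact hX
        · intro hd
          exact hX (hd.mono_left (subset_insert x X))
      rcases mul_eq_zero.1 h1 with h5 | h5
      · exact absurd h5 h4.ne'
      · exact h5

/-- the family on `V ∖ e` attached to a vertex `v` of `e` -/
def link (G : Finset α → Bool) (v : α) (S : Finset α) : Bool := G (insert v S)

theorem link_up (G : Finset α → Bool) (hG : Up G) (v : α) : Up (link G v) := by
  intro S T hST h
  exact hG _ _ (insert_subset_insert v hST) h

/-- the probability that the greedy set misses `e` is at most the survival probability of the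
process killed at rate `#{v ∈ e : S ∪ {v} ∉ G}` -/
theorem gr_miss_le (G : Finset α → Bool) (hG : Up G) (e : Finset α) (C : Finset α) :
    ∀ X S, X ⊆ S → (∀ v ∈ e, v ∉ C → G (insert v S) = true) →
      gr G (miss e) X C ≤ sv (fun T => ∑ v ∈ e, ind (link G v) T) S (C \ e) := by
  have hrho : ∀ T, 0 ≤ (fun T => ∑ v ∈ e, ind (link G v) T) T :=
    fun T => sum_nonneg fun v _ => ind_nonneg _ _
  set rho : Finset α → ℝ := fun T => ∑ v ∈ e, ind (link G v) T with hrhodef
  induction C using Finset.strongInduction with
  | H C ih =>
    intro X S hXS hold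
    rcases C.eq_empty_or_nonempty with h | h
    · subst h
      have h0 : rho S = 0 := by
        rw [hrhodef]
        apply sum_eq_zero
        intro v hv
        have := hold v hv (notMem_empty v)
        unfold ind link
        rw [if_pos this]
      rw [gr_empty, empty_sdiff, sv_empty, if_pos h0]
      unfold miss
      split_ifs <;> norm_num
    · have h4 : (0:ℝ) < C.card := by exact_mod_cast h.card_pos
      have hsv0 := sv_nonneg rho hrho (C \ e) S
      have hrec := sv_rec rho hrho S (C \ e)
      -- split the sum
      have hsplit : ∑ x ∈ C, gr G (miss e) (if G (insert x X) then X else insert x X) (C.erase x)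
          = ∑ x ∈ C \ e, gr G (miss e) (if G (insert x X) then X else insert x X) (C.erase x)
            + ∑ x ∈ C ∩ e, gr G (miss e) (if G (insert x X) then X else insert x X)
                (C.erase x) := by
        rw [← sum_sdiff (inter_subset_left : C ∩ e ⊆ C), sdiff_inter_self_left]
      have hA : ∑ x ∈ C \ e, gr G (miss e) (if G (insert x X) then X else insert x X) (C.erase x)
          ≤ ∑ x ∈ C \ e, sv rho (insert x S) ((C \ e).erase x) := by
        apply sum_le_sum
        intro x hx
        have hxC : x ∈ C := (mem_sdiff.1 hx).1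
        have hxe : x ∉ e := (mem_sdiff.1 hx).2
        have h5 : (C.erase x) \ e = (C \ e).erase x := by
          ext z; simp only [mem_sdiff, mem_erase]; tauto
        rw [← h5]
        apply ih _ (erase_ssubset hxC)
        · split_ifs
          · exact hXS.trans (subset_insert x S)
          · exact insert_subset_insert x hXS
        · intro v hv hvC
          have hvx : v ≠ x := fun h => hxe (h ▸ hv)
          have hvC' : v ∉ C := fun h => hvC (mem_erase.2 ⟨hvx, h⟩)
          exact hG _ _ (insert_subset_insert v (subset_insert x S)) (hold v hv hvC')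
      have hB : ∑ x ∈ C ∩ e, gr G (miss e) (if G (insert x X) then X else insert x X) (C.erase x)
          ≤ ∑ x ∈ C ∩ e, (1 - ind (link G x) S) * sv rho S (C \ e) := by
        apply sum_le_sum
        intro x hx
        have hxC : x ∈ C := (mem_inter.1 hx).1
        have hxe : x ∈ e := (mem_inter.1 hx).2
        by_cases hg : G (insert x X) = true
        · rw [if_pos hg]
          have hgS : G (insert x S) = true := hG _ _ (insert_subset_insert x hXS) hg
          have e1 : ind (link G x) S = 0 := by unfold ind link; rw [if_pos hgS]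
          rw [e1, sub_zero, one_mul]
          have h5 : (C.erase x) \ e = C \ e := by
            ext z; simp only [mem_sdiff, mem_erase]
            constructor
            · rintro ⟨⟨_, h2⟩, h3⟩; exact ⟨h2, h3⟩
            · rintro ⟨h2, h3⟩; exact ⟨⟨fun h => h3 (h ▸ hxe), h2⟩, h3⟩
          rw [← h5]
          apply ih _ (erase_ssubset hxC) _ _ hXS
          intro v hv hvC
          by_cases hvx : v = x
          · rw [hvx]; exact hgS
          · exact hold v hv fun h => hvC (mem_erase.2 ⟨hvx, h⟩)
        · rw [if_neg hg, gr_miss_zero]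
          · have := ind_le_one (link G x) S
            exact mul_nonneg (by linarith) hsv0
          · intro hd
            exact disjoint_left.1 hd (mem_insert_self x X) hxe
      -- the sum of the indicators over `C ∩ e` is all of `rho S`
      have hrhoS : ∑ x ∈ C ∩ e, ind (link G x) S = rho S := by
        rw [hrhodef]
        apply sum_subset inter_subset_right
        intro v hv hvn
        have hvC : v ∉ C := fun h => hvn (mem_inter.2 ⟨h, hv⟩)
        unfold ind link
        rw [if_pos (hold v hv hvC)]
      have hB2 : ∑ x ∈ C ∩ e, (1 - ind (link G x) S) * sv rho S (C \ e)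
          = (((C ∩ e).card : ℝ) - rho S) * sv rho S (C \ e) := by
        rw [← sum_mul, sum_sub_distrib, sum_const, nsmul_eq_mul, mul_one, hrhoS]
      have hcard : (C.card : ℝ) = ((C \ e).card : ℝ) + ((C ∩ e).card : ℝ) := by
        rw [← card_sdiff_add_card_inter C e]; push_cast; ring
      have hfin : (C.card : ℝ) * gr G (miss e) X C ≤ (C.card : ℝ) * sv rho S (C \ e) := by
        rw [gr_rec, hsplit]
        calc _ ≤ ∑ x ∈ C \ e, sv rho (insert x S) ((C \ e).erase x)
              + ∑ x ∈ C ∩ e, (1 - ind (link G x) S) * sv rho S (C \ e) := add_le_add hA hB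
          _ = (C.card : ℝ) * sv rho S (C \ e) := by
              rw [hB2, ← hrec, hcard]; ring
      exact le_of_mul_le_mul_left hfin h4

/-- `k` pairwise disjoint members of `G` inside `C` -/
def PackN (G : Finset α → Bool) : ℕ → Finset α → Prop
  | 0, _ => True
  | (k+1), C => ∃ T ⊆ C, G T = true ∧ PackN G k (C \ T)

theorem packN_mono (G : Finset α → Bool) (k : ℕ) :
    ∀ C D : Finset α, C ⊆ D → PackN G k C → PackN G k D := by
  induction k with
  | zero => intro C D _ _; trivial
  | succ k ih =>
    rintro C D hCD ⟨T, hT, hG, hP⟩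
    exact ⟨T, hT.trans hCD, hG, ih _ _ (sdiff_subset_sdiff hCD subset_rfl) hP⟩

theorem packN_of_pack (G : Finset α → Bool) (l : List α) :
    ∀ C : Finset α, l.Nodup → (∀ v ∈ l, v ∉ C) → Pack (l.map (link G)) C →
      PackN G l.length (C ∪ l.toFinset) := by
  induction l with
  | nil => intro C _ _ _; trivial
  | cons v l ih =>
    rintro C hnd hC ⟨T, hT, hG, hP⟩
    have hnd' := (List.nodup_cons.1 hnd)
    have hvC : v ∉ C := hC v (by simp)
    refine ⟨insert v T, ?_, hG, ?_⟩
    · intro z hz
      rcases mem_insert.1 hz with rfl | hz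
      · simp
      · exact mem_union_left _ (hT hz)
    · have h1 := ih (C \ T) hnd'.2
        (fun u hu huC => hC u (List.mem_cons_of_mem v hu) (mem_sdiff.1 huC).1) hP
      refine packN_mono G _ _ _ ?_ h1
      intro z hz
      rcases mem_union.1 hz with hz | hz
      · have hz' := mem_sdiff.1 hz
        refine mem_sdiff.2 ⟨mem_union_left _ hz'.1, ?_⟩
        intro hzi
        rcases mem_insert.1 hzi with rfl | hzT
        · exact hvC hz'.1
        · exact hz'.2 hzT
      · have hzl : z ∈ l := List.mem_toFinset.1 hz
        refine mem_sdiff.2 ⟨mem_union_right _ (by simp [hzl]), ?_⟩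
        intro hzi
        rcases mem_insert.1 hzi with rfl | hzT
        · exact hnd'.1 hzl
        · exact hC z (List.mem_cons_of_mem v hzl) (hT hzT)

theorem coloring_of_packN (G : Finset α → Bool) (k : ℕ) :
    ∀ C : Finset α, PackN G k C →
      ∃ f : α → ℕ, ∀ i < k, ∃ T ⊆ C, (∀ v ∈ T, f v = i) ∧ G T = true := by
  induction k with
  | zero => intro C _; exact ⟨fun _ => 0, fun i hi => absurd hi (Nat.not_lt_zero i)⟩
  | succ k ih =>
    rintro C ⟨T, hT, hG, hP⟩
    obtain ⟨f, hf⟩ := ih _ hP
    refine ⟨fun v => if v ∈ T then k else f v, ?_⟩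
    intro i hi
    rcases Nat.lt_succ_iff_lt_or_eq.1 hi with hi | rfl
    · obtain ⟨T', hT', hfT', hG'⟩ := hf i hi
      refine ⟨T', hT'.trans sdiff_subset, ?_, hG'⟩
      intro v hv
      have : v ∉ T := (mem_sdiff.1 (hT' hv)).2
      simp only [if_neg this]
      exact hfT' v hv
    · refine ⟨T, hT, ?_, hG⟩
      intro v hv
      simp [hv]

/-- **Main estimate.** If the increasing family `G` has no `k` pairwise disjoint members, then the
greedy set misses a given `k`-set with probability at most `(k-1)/(2k-1)`. -/
theorem miss_bound [Fintype α] (G : Finset α → Bool) (hG : Up G) (e : Finset α)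
    (he : 1 ≤ e.card) (hno : ¬ PackN G e.card univ) :
    (2 * (e.card : ℝ) - 1) * gr G (miss e) ∅ univ ≤ (e.card : ℝ) - 1 := by
  have hne : e.Nonempty := card_pos.1 he
  set k : ℝ := (e.card : ℝ) with hk
  have hk1 : 1 ≤ k := by rw [hk]; exact_mod_cast he
  have hk0 : 0 < k := by linarith
  set B : Finset α := univ \ e with hB
  -- the greedy bound
  have h1 : gr G (miss e) ∅ univ ≤ sv (fun T => ∑ v ∈ e, ind (link G v) T) ∅ B :=
    gr_miss_le G hG e univ ∅ ∅ (empty_subset _) (fun v _ hv => absurd (mem_univ v) hv)
  have hrate : (fun T => ∑ v ∈ e, ind (link G v) T) = (fun T => k * avgRate e (link G) T) := by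
    funext T
    unfold avgRate
    rw [← hk]
    field_simp
  rw [hrate] at h1
  -- the comparison
  have ha0 : ∀ S, 0 ≤ avgRate e (link G) S := avgRate_nonneg e (link G)
  have hanti : ∀ S T, S ⊆ T → avgRate e (link G) T ≤ avgRate e (link G) S :=
    avgRate_anti e (link G) (fun v _ => link_up G hG v)
  have h2 := sv_compare (avgRate e (link G)) ha0 hanti k hk1
    (sv (avgRate e (link G)) ∅ B) B ∅ le_rfl
  have h3 := sv_avg_le e hne (link G) (fun v _ => link_up G hG v) B ∅
  -- the packing inequality
  have hnopack : ¬ Pack (e.toList.map (link G)) B := by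
    intro hP
    have := packN_of_pack G e.toList B e.nodup_toList
      (fun v hv hvB => (mem_sdiff.1 hvB).2 (mem_toList.1 hv)) hP
    rw [length_toList] at this
    exact hno (packN_mono G _ _ _ (subset_univ _) this)
  have h4 := pack_ineq (e.toList.map (link G)) (by
    intro h
    have := congrArg List.length h
    simp only [List.length_map, length_toList, List.length_nil] at this
    omega) B hnopack
  rw [List.map_map] at h4
  have h5 : ((e.toList.map ((fun H => gp H ∅ B) ∘ (link G)))).sum
      = ∑ v ∈ e, gp (link G v) ∅ B := by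
    rw [Finset.sum_map_toList]; rfl
  rw [h5] at h4
  have h6 : ∑ v ∈ e, gp (link G v) ∅ B
      ≤ ∑ v ∈ e, ((B.card : ℝ) + 1) * (1 - sv (ind (link G v)) ∅ B) :=
    sum_le_sum fun v _ => gp_le (link G v) B ∅
  rw [← mul_sum, sum_sub_distrib, sum_const, nsmul_eq_mul, mul_one, ← hk] at h6
  have hB1 : (0:ℝ) < (B.card : ℝ) + 1 := by positivity
  have h7 : (1:ℝ) ≤ k - ∑ v ∈ e, sv (ind (link G v)) ∅ B := by
    have : ((B.card : ℝ) + 1) * 1
        ≤ ((B.card : ℝ) + 1) * (k - ∑ v ∈ e, sv (ind (link G v)) ∅ B) := by linarith
    exact le_of_mul_le_mul_left this hB1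
  rw [← hk] at h3
  set L1 := sv (avgRate e (link G)) ∅ B with hL1
  set Lk := sv (fun T => k * avgRate e (link G) T) ∅ B with hLk
  have hL1k : k * L1 ≤ k - 1 := by linarith
  have hL10 : 0 ≤ L1 := sv_nonneg _ ha0 _ _
  have hLk0 : 0 ≤ Lk := sv_nonneg _ (fun T => mul_nonneg hk0.le (ha0 T)) _ _
  have hLk1 : Lk ≤ 1 := sv_le_one _ (fun T => mul_nonneg hk0.le (ha0 T)) _ _
  -- algebra
  have h8 : L1 * (k - 1) * (1 - Lk) ≤ k * (L1 - Lk) := by
    have : L1 * ((k - 1) / k) * (1 - Lk) * k ≤ (L1 - Lk) * k :=
      mul_le_mul_of_nonneg_right h2 hk0.le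
    have e1 : L1 * ((k - 1) / k) * (1 - Lk) * k = L1 * (k - 1) * (1 - Lk) := by
      field_simp
    linarith
  -- k Lk - (k-1) L1 Lk ≤ L1
  have h9 : k * Lk - (k - 1) * L1 * Lk ≤ L1 := by nlinarith
  -- multiply by k and use k L1 ≤ k - 1
  have h10 : (2 * k - 1) * Lk ≤ k - 1 := by
    have h11 : k * (k * Lk - (k - 1) * L1 * Lk) ≤ k * L1 := mul_le_mul_of_nonneg_left h9 hk0.le
    have h12 : (k - 1) * Lk * (k * L1) ≤ (k - 1) * Lk * (k - 1) :=
      mul_le_mul_of_nonneg_left hL1k (mul_nonneg (by linarith) hLk0)
    nlinarith
  have h13 : (2 * k - 1) * gr G (miss e) ∅ univ ≤ (2 * k - 1) * Lk :=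
    mul_le_mul_of_nonneg_left h1 (by linarith)
  linarith

end Pool.Agent.H78BT
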