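import Pool.Agent.H78BT.Core

/-!
# The packing inequality

If families `G_1, ..., G_k` have no pairwise disjoint members `T_i ∈ G_i` inside `C`, then the
expected numbers of initial segments (of a random order of `C`) outside the `G_i` add up to at least
`|C| + 1`.
-/

set_option autoImplicit false
open Finset

namespace Pool.Agent.H78BT

variable {α : Type*} [DecidableEq α]

/-- expected number of bad initial segments, with fuel -/
noncomputable def gpF (G : Finset α → Bool) : ℕ → Finset α → Finset α → ℝ
  | 0, S, _ => ind G S
  | (m+1), S, C => ind G S + (∑ x ∈ C, gpF G m (insert x S) (C.erase x)) / ((m : ℝ) + 1)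

/-- expected number of initial segments `P` of a random order of `C` with `S ∪ P` not in the family -/
noncomputable def gp (G : Finset α → Bool) (S C : Finset α) : ℝ := gpF G C.card S C

theorem gp_empty (G : Finset α → Bool) (S : Finset α) : gp G S ∅ = ind G S := rfl

theorem gp_rec (G : Finset α → Bool) (S C : Finset α) :
    (C.card : ℝ) * gp G S C
      = (C.card : ℝ) * ind G S + ∑ x ∈ C, gp G (insert x S) (C.erase x) := by
  rcases C.eq_empty_or_nonempty with h | h
  · subst h; simp
  · obtain ⟨m, hm⟩ : ∃ m, C.card = m + 1 := ⟨C.card - 1, by have := h.card_pos; omega⟩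
    have h1 : gp G S C = ind G S + (∑ x ∈ C, gpF G m (insert x S) (C.erase x)) / ((m : ℝ) + 1) := by
      unfold gp; rw [hm]; rfl
    have h2 : ∀ x ∈ C, gp G (insert x S) (C.erase x) = gpF G m (insert x S) (C.erase x) := by
      intro x hx
      unfold gp
      rw [card_erase_of_mem hx, hm]; rfl
    rw [sum_congr rfl h2, h1, hm]
    have h3 : (0:ℝ) < (m : ℝ) + 1 := by positivity
    push_cast
    field_simp

theorem gp_nonneg (G : Finset α → Bool) (C : Finset α) : ∀ S, 0 ≤ gp G S C := by
  induction C using Finset.strongInduction with
  | H C ih =>
    intro S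
    rcases C.eq_empty_or_nonempty with h | h
    · subst h; rw [gp_empty]; exact ind_nonneg _ _
    · have h1 := gp_rec G S C
      have h2 : 0 ≤ ∑ x ∈ C, gp G (insert x S) (C.erase x) :=
        sum_nonneg fun x hx => ih _ (erase_ssubset hx) _
      have h4 : (0:ℝ) < C.card := by exact_mod_cast h.card_pos
      have h5 := ind_nonneg G S
      by_contra hneg
      push Not at hneg
      nlinarith

/-- removing a random element from `C` does not increase the expected number of bad initial segments -/
theorem gp_erase (G : Finset α → Bool) (C : Finset α) :
    ∀ S, ∑ x ∈ C, gp G S (C.erase x) ≤ (C.card : ℝ) * gp G S C := by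
  induction C using Finset.strongInduction with
  | H C ih =>
    intro S
    rcases C.eq_empty_or_nonempty with h | h
    · subst h; simp
    · rw [gp_rec G S C]
      -- case of one element
      by_cases hone : C.card = 1
      · obtain ⟨y, rfl⟩ := card_eq_one.1 hone
        simp only [sum_singleton, card_singleton, Nat.cast_one, one_mul]
        have : ({y} : Finset α).erase y = ∅ := by simp
        rw [this, gp_empty, gp_empty]
        linarith [ind_nonneg G (insert y S)]
      · have h4 : (2:ℝ) ≤ C.card := by
          have := h.card_pos
          exact_mod_cast (by omega : 2 ≤ C.card)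
        have hc1 : (0:ℝ) < (C.card : ℝ) - 1 := by linarith
        have hcard : ∀ x ∈ C, (((C.erase x).card : ℕ) : ℝ) = (C.card : ℝ) - 1 := by
          intro x hx
          rw [card_erase_of_mem hx, Nat.cast_sub (card_pos.2 ⟨x, hx⟩)]; simp
        -- left side
        have hL : ((C.card : ℝ) - 1) * ∑ x ∈ C, gp G S (C.erase x)
            = (C.card : ℝ) * (((C.card : ℝ) - 1) * ind G S)
              + ∑ x ∈ C, ∑ y ∈ C.erase x, gp G (insert y S) ((C.erase x).erase y) := by
          rw [mul_sum]
          have : ∀ x ∈ C, ((C.card : ℝ) - 1) * gp G S (C.erase x)
              = ((C.card : ℝ) - 1) * ind G S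
                + ∑ y ∈ C.erase x, gp G (insert y S) ((C.erase x).erase y) := by
            intro x hx
            rw [← hcard x hx, gp_rec G S (C.erase x)]
          rw [sum_congr rfl this, sum_add_distrib, sum_const, nsmul_eq_mul]
        have hR : ∑ y ∈ C, ∑ x ∈ C.erase y, gp G (insert y S) ((C.erase y).erase x)
            ≤ ((C.card : ℝ) - 1) * ∑ y ∈ C, gp G (insert y S) (C.erase y) := by
          rw [mul_sum]
          apply sum_le_sum
          intro y hy
          rw [← hcard y hy]
          exact ih _ (erase_ssubset hy) _
        have hswap : ∑ x ∈ C, ∑ y ∈ C.erase x, gp G (insert y S) ((C.erase x).erase y)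
            = ∑ y ∈ C, ∑ x ∈ C.erase y, gp G (insert y S) ((C.erase y).erase x) := by
          rw [sum_comm' (t' := C) (s' := fun y => C.erase y)]
          · apply sum_congr rfl
            intro y _
            apply sum_congr rfl
            intro x _
            rw [Finset.erase_right_comm]
          · intro x y
            simp only [mem_erase]
            constructor
            · rintro ⟨h1, h2, h3⟩; exact ⟨⟨fun h => h2 h.symm, h1⟩, h3⟩
            · rintro ⟨⟨h1, h2⟩, h3⟩; exact ⟨h2, fun h => h1 h.symm, h3⟩
        have hfin : ((C.card : ℝ) - 1) * ∑ x ∈ C, gp G S (C.erase x)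
            ≤ ((C.card : ℝ) - 1) * ((C.card : ℝ) * ind G S
              + ∑ x ∈ C, gp G (insert x S) (C.erase x)) := by
          rw [hL, hswap]
          nlinarith
        exact le_of_mul_le_mul_left hfin hc1

/-- pairwise disjoint members of the families in the list, inside `C` -/
def Pack : List (Finset α → Bool) → Finset α → Prop
  | [], _ => True
  | G :: Gs, C => ∃ T ⊆ C, G T = true ∧ Pack Gs (C \ T)

/-- the packing inequality, in the form suited to induction -/
theorem pack_aux (Gs : List (Finset α → Bool)) :
    ∀ (G : Finset α → Bool) (C S : Finset α),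
      (¬ ∃ T ⊆ C, G (S ∪ T) = true ∧ Pack Gs (C \ T)) →
      (C.card : ℝ) + 1 ≤ gp G S C + (Gs.map (fun H => gp H ∅ C)).sum := by
  induction Gs with
  | nil =>
    intro G C
    induction C using Finset.strongInduction with
    | H C ih =>
      intro S hno
      have hS : G S ≠ true := by
        intro h
        exact hno ⟨∅, empty_subset _, by simpa using h, trivial⟩
      have hi : ind G S = 1 := by simp [ind, hS]
      rcases C.eq_empty_or_nonempty with h | h
      · subst h; simp [gp_empty, hi]
      · have h4 : (0:ℝ) < C.card := by exact_mod_cast h.card_pos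
        have h1 := gp_rec G S C
        have h2 : ∑ x ∈ C, (C.card : ℝ) ≤ ∑ x ∈ C, gp G (insert x S) (C.erase x) := by
          apply sum_le_sum
          intro x hx
          have := ih _ (erase_ssubset hx) (insert x S) (by
            rintro ⟨T, hT, hG, _⟩
            refine hno ⟨insert x T, insert_subset hx (hT.trans (erase_subset _ _)), ?_, trivial⟩
            rw [Finset.union_insert, ← Finset.insert_union]; exact hG)
          rw [card_erase_of_mem hx, Nat.cast_sub (card_pos.2 ⟨x, hx⟩)] at this
          simpa using this
        rw [sum_const, nsmul_eq_mul] at h2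
        rw [hi] at h1
        simp only [List.map_nil, List.sum_nil, add_zero]
        have : (C.card : ℝ) * ((C.card : ℝ) + 1) ≤ (C.card : ℝ) * gp G S C := by linarith
        exact le_of_mul_le_mul_left this h4
  | cons G' Gs' ihGs =>
    intro G C
    induction C using Finset.strongInduction with
    | H C ih =>
      intro S hno
      have hlist : 0 ≤ ((G' :: Gs').map (fun H => gp H ∅ C)).sum := by
        apply List.sum_nonneg
        intro x hx
        obtain ⟨H, _, rfl⟩ := List.mem_map.1 hx
        exact gp_nonneg _ _ _
      by_cases hS : G S = true
      · -- the first family is already satisfied: use the inequality for the rest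
        have h1 : ¬ ∃ T ⊆ C, G' (∅ ∪ T) = true ∧ Pack Gs' (C \ T) := by
          rintro ⟨T, hT, hG, hP⟩
          refine hno ⟨∅, empty_subset _, by simpa using hS, ?_⟩
          rw [sdiff_empty]
          exact ⟨T, hT, by simpa using hG, hP⟩
        have h2 := ihGs G' C ∅ h1
        simp only [List.map_cons, List.sum_cons]
        linarith [gp_nonneg G C S]
      · have hi : ind G S = 1 := by simp [ind, hS]
        rcases C.eq_empty_or_nonempty with h | h
        · subst h
          rw [gp_empty, hi]
          simp only [card_empty, Nat.cast_zero, zero_add]
          linarith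
        · have h4 : (0:ℝ) < C.card := by exact_mod_cast h.card_pos
          have h1 := gp_rec G S C
          have h2 : ∑ x ∈ C, (C.card : ℝ) ≤ ∑ x ∈ C, (gp G (insert x S) (C.erase x)
              + ((G' :: Gs').map (fun H => gp H ∅ (C.erase x))).sum) := by
            apply sum_le_sum
            intro x hx
            have := ih _ (erase_ssubset hx) (insert x S) (by
              rintro ⟨T, hT, hG, hP⟩
              refine hno ⟨insert x T, insert_subset hx (hT.trans (erase_subset _ _)), ?_, ?_⟩
              · rw [Finset.union_insert, ← Finset.insert_union]; exact hG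
              · have : C \ insert x T = (C.erase x) \ T := by
                  ext z; simp only [mem_sdiff, mem_insert, mem_erase]; tauto
                rw [this]; exact hP)
            rw [card_erase_of_mem hx, Nat.cast_sub (card_pos.2 ⟨x, hx⟩)] at this
            simpa using this
          rw [sum_const, nsmul_eq_mul, sum_add_distrib] at h2
          -- sum over the list commutes
          have h3 : ∀ L : List (Finset α → Bool),
              ∑ x ∈ C, (L.map (fun H => gp H ∅ (C.erase x))).sum
                ≤ (C.card : ℝ) * (L.map (fun H => gp H ∅ C)).sum := by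
            intro L
            induction L with
            | nil => simp
            | cons H L ihL =>
              simp only [List.map_cons, List.sum_cons, sum_add_distrib, mul_add]
              exact add_le_add (gp_erase H C ∅) ihL
          have h5 := h3 (G' :: Gs')
          rw [hi] at h1
          have : (C.card : ℝ) * ((C.card : ℝ) + 1)
              ≤ (C.card : ℝ) * (gp G S C + ((G' :: Gs').map (fun H => gp H ∅ C)).sum) := by
            rw [mul_add (C.card : ℝ) (gp G S C)]
            linarith
          exact le_of_mul_le_mul_left this h4

/-- the packing inequality -/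
theorem pack_ineq (Gs : List (Finset α → Bool)) (hne : Gs ≠ []) (C : Finset α)
    (hno : ¬ Pack Gs C) :
    (C.card : ℝ) + 1 ≤ (Gs.map (fun H => gp H ∅ C)).sum := by
  cases Gs with
  | nil => exact absurd rfl hne
  | cons G Gs =>
    have := pack_aux Gs G C ∅ (by
      rintro ⟨T, hT, hG, hP⟩
      exact hno ⟨T, hT, by simpa using hG, hP⟩)
    simpa using this

/-- bad initial segments against survival: `gp ≤ (|C| + 1) (1 - sv)` -/
theorem gp_le (G : Finset α → Bool) (C : Finset α) :
    ∀ S, gp G S C ≤ ((C.card : ℝ) + 1) * (1 - sv (ind G) S C) := by
  induction C using Finset.strongInduction with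
  | H C ih =>
    intro S
    rcases C.eq_empty_or_nonempty with h | h
    · subst h
      rw [gp_empty, sv_empty]
      unfold ind
      split_ifs <;> simp_all
    · have h4 : (0:ℝ) < C.card := by exact_mod_cast h.card_pos
      have h1 := gp_rec G S C
      have h2 := sv_rec (ind G) (ind_nonneg G) S C
      have h3 : ∑ x ∈ C, gp G (insert x S) (C.erase x)
          ≤ ∑ x ∈ C, (C.card : ℝ) * (1 - sv (ind G) (insert x S) (C.erase x)) := by
        apply sum_le_sum
        intro x hx
        have := ih _ (erase_ssubset hx) (insert x S)
        rw [card_erase_of_mem hx, Nat.cast_sub (card_pos.2 ⟨x, hx⟩)] at this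
        simpa using this
      rw [← mul_sum, sum_sub_distrib, sum_const, nsmul_eq_mul, mul_one, ← h2] at h3
      have h5 := sv_le_one (ind G) (ind_nonneg G) C S
      have h6 : (C.card : ℝ) * gp G S C
          ≤ (C.card : ℝ) * (((C.card : ℝ) + 1) * (1 - sv (ind G) S C)) := by
        rw [h1]
        by_cases hb : G S = true
        · have e1 : ind G S = 0 := by simp [ind, hb]
          rw [e1] at h3 ⊢
          nlinarith
        · have e1 : ind G S = 1 := by simp [ind, hb]
          rw [e1] at h3 ⊢
          nlinarith
      exact le_of_mul_le_mul_left h6 h4

end Pool.Agent.H78BT
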